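import Pool.Agent.L0h77.BW.Defs

/-! BW/CHAR: from moments to characteristic functions on open sets. -/

set_option autoImplicit false
open MeasureTheory Filter Topology Complex
open scoped ContDiff

namespace Pool.Agent.L0h77.BW

open Pool.Agent.L0h56.BQ

noncomputable section

theorem exp_taylor (J : ℕ) : ∀ x : ℝ, 0 ≤ x →
    ‖Complex.exp (I * x) - ∑ j ∈ Finset.range J, (I * x) ^ j / (j.factorial : ℂ)‖ ≤
      x ^ J / (J.factorial : ℝ) := by
  induction J with
  | zero =>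
    intro x hx
    simp only [Finset.range_zero, Finset.sum_empty, sub_zero, pow_zero, Nat.factorial_zero,
      Nat.cast_one, div_one]
    rw [mul_comm, Complex.norm_exp_ofReal_mul_I]
  | succ J ih =>
    intro x hx
    have hd : ∀ y : ℝ, HasDerivAt (fun y : ℝ => Complex.exp (I * y) -
        ∑ j ∈ Finset.range (J + 1), (I * y) ^ j / (j.factorial : ℂ))
        (I * (Complex.exp (I * y) - ∑ j ∈ Finset.range J, (I * y) ^ j / (j.factorial : ℂ))) y := by
      intro y
      have h0 : HasDerivAt (fun y : ℝ => I * (y : ℂ)) I y := by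
        simpa using (Complex.ofRealCLM.hasDerivAt (x := y)).const_mul I
      have h1 : HasDerivAt (fun y : ℝ => Complex.exp (I * y)) (Complex.exp (I * y) * I) y := h0.cexp
      have h2 : HasDerivAt (fun y : ℝ => ∑ j ∈ Finset.range (J + 1),
          (I * y) ^ j / (j.factorial : ℂ)) (∑ j ∈ Finset.range J, I *
          ((I * y) ^ j / (j.factorial : ℂ))) y := by
        have h3 : (fun y : ℝ => ∑ j ∈ Finset.range (J + 1), (I * (y : ℂ)) ^ j / (j.factorial : ℂ)) =
            fun y : ℝ => (∑ j ∈ Finset.range J, (I * (y : ℂ)) ^ (j + 1) / ((j + 1).factorial : ℂ)) +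
              1 := by
          funext y
          rw [Finset.sum_range_succ']
          simp
        rw [h3]
        refine HasDerivAt.add_const 1 ?_
        refine HasDerivAt.fun_sum fun j _ => ?_
        have h4 := (h0.fun_pow (j + 1)).div_const ((j + 1).factorial : ℂ)
        refine h4.congr_deriv ?_
        rw [Nat.factorial_succ]
        have h5 : ((j.factorial : ℕ) : ℂ) ≠ 0 := by exact_mod_cast Nat.factorial_ne_zero j
        have h6 : ((j : ℂ) + 1) ≠ 0 := by exact_mod_cast Nat.succ_ne_zero j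
        push_cast
        field_simp
      refine (h1.fun_sub h2).congr_deriv ?_
      rw [mul_sub, Finset.mul_sum]
      ring
    have hB : ∀ y : ℝ, HasDerivAt (fun y : ℝ => y ^ (J + 1) / ((J + 1).factorial : ℝ))
        (y ^ J / (J.factorial : ℝ)) y := by
      intro y
      have h4 := ((hasDerivAt_id y).fun_pow (J + 1)).div_const ((J + 1).factorial : ℝ)
      refine h4.congr_deriv ?_
      rw [Nat.factorial_succ]
      have h5 : ((J.factorial : ℕ) : ℝ) ≠ 0 := by exact_mod_cast Nat.factorial_ne_zero J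
      have h6 : ((J : ℝ) + 1) ≠ 0 := by exact_mod_cast Nat.succ_ne_zero J
      push_cast
      simp only [id]
      field_simp
    refine image_norm_le_of_norm_deriv_right_le_deriv_boundary' (a := 0) (b := x)
      (fun y _ => (hd y).continuousAt.continuousWithinAt)
      (fun y _ => (hd y).hasDerivWithinAt) ?_
      (fun y _ => (hB y).continuousAt.continuousWithinAt)
      (fun y _ => (hB y).hasDerivWithinAt) ?_ ⟨hx, le_refl x⟩
    · have h7 : ∑ j ∈ Finset.range (J + 1), (I * ((0 : ℝ) : ℂ)) ^ j / (j.factorial : ℂ) = 1 := by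
        rw [Finset.sum_range_succ']
        simp
      rw [h7]
      simp
    · intro y hy
      rw [norm_mul, Complex.norm_I, one_mul]
      exact ih y hy.1

theorem exp_taylor' (J : ℕ) (x : ℝ) :
    ‖Complex.exp (I * x) - ∑ j ∈ Finset.range J, (I * x) ^ j / (j.factorial : ℂ)‖ ≤
      |x| ^ J / (J.factorial : ℝ) := by
  rcases le_total 0 x with hx | hx
  · rw [abs_of_nonneg hx]
    exact exp_taylor J x hx
  · rw [abs_of_nonpos hx]
    have h1 := exp_taylor J (-x) (by linarith)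
    have h2 : Complex.exp (I * ((-x : ℝ) : ℂ)) -
        ∑ j ∈ Finset.range J, (I * ((-x : ℝ) : ℂ)) ^ j / (j.factorial : ℂ) =
        (starRingEnd ℂ) (Complex.exp (I * x) -
          ∑ j ∈ Finset.range J, (I * x) ^ j / (j.factorial : ℂ)) := by
      rw [map_sub, map_sum, ← Complex.exp_conj]
      congr 1
      · congr 1
        simp
      · refine Finset.sum_congr rfl fun j _ => ?_
        rw [map_div₀, map_pow, map_mul, Complex.conj_I, Complex.conj_ofReal]
        simp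
    rw [h2, RCLike.norm_conj] at h1
    exact h1

theorem gm_odd (v : ℝ) : ∀ m : ℕ, gm (2 * m + 1) v = 0
  | 0 => rfl
  | m + 1 => by
    rw [show 2 * (m + 1) + 1 = (2 * m + 1) + 2 by ring, gm, gm_odd v m, mul_zero]

theorem gm_even (v : ℝ) : ∀ m : ℕ,
    gm (2 * m) v / ((2 * m).factorial : ℝ) = (v / 2) ^ m / (m.factorial : ℝ)
  | 0 => by simp [gm]
  | m + 1 => by
    have h := gm_even v m
    have h5 : (((2 * m).factorial : ℕ) : ℝ) ≠ 0 := by exact_mod_cast Nat.factorial_ne_zero _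
    have h6 : ((m.factorial : ℕ) : ℝ) ≠ 0 := by exact_mod_cast Nat.factorial_ne_zero _
    have h7 : ((m : ℝ) + 1) ≠ 0 := by positivity
    have h8 : ((2 * m : ℝ) + 1) ≠ 0 := by positivity
    have h1 : gm (2 * m) v = (v / 2) ^ m / (m.factorial : ℝ) * ((2 * m).factorial : ℝ) := by
      rw [← h]
      field_simp
    rw [show 2 * (m + 1) = 2 * m + 2 by ring, gm, h1, Nat.factorial_succ, Nat.factorial_succ,
      Nat.factorial_succ m]
    push_cast
    have h9 : ((2 * m : ℝ) + 1 + 1) ≠ 0 := by positivity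
    field_simp
    ring

theorem gm_sum (v : ℝ) (M : ℕ) :
    ∑ j ∈ Finset.range (2 * M), (I ^ j / (j.factorial : ℂ)) * (gm j v : ℂ) =
      ((∑ m ∈ Finset.range M, (-v / 2) ^ m / (m.factorial : ℝ) : ℝ) : ℂ) := by
  induction M with
  | zero => simp
  | succ M ih =>
    have h1 : (I ^ (2 * M) / ((2 * M).factorial : ℂ)) * (gm (2 * M) v : ℂ) =
        (((-v / 2) ^ M / (M.factorial : ℝ) : ℝ) : ℂ) := by
      have h2 := gm_even v M
      have h3 : (I : ℂ) ^ (2 * M) = (((-1 : ℝ) ^ M : ℝ) : ℂ) := by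
        rw [pow_mul, I_sq]
        push_cast
        rfl
      rw [h3]
      have h4 : (-v / 2) ^ M / (M.factorial : ℝ) = (-1) ^ M * ((v / 2) ^ M / (M.factorial : ℝ)) := by
        rw [show -v / 2 = (-1) * (v / 2) by ring, mul_pow]
        ring
      rw [h4, ← h2]
      push_cast
      ring
    rw [show 2 * (M + 1) = 2 * M + 1 + 1 by ring, Finset.sum_range_succ, Finset.sum_range_succ, ih,
      gm_odd, Finset.sum_range_succ, h1]
    push_cast
    ring

theorem csub (f g : ℂ → ℂ) (hf : Continuous f) (hg : Continuous g) :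
    ∫ z in cell 2, (f z - g z) = (∫ z in cell 2, f z) - ∫ z in cell 2, g z :=
  integral_sub (cell_integrable 2 hf) (cell_integrable 2 hg)

theorem SS_abs (hMOM : S_MOM) (S : Finset GI) (hS : ∀ ν ∈ S, -ν ∈ S)
    (c : GI → ℂ) (hc : ∀ ν, c (-ν) = (starRingEnd ℂ) (c ν)) (ξ : GI) (M : ℕ) :
    ‖(∫ z in cell 2, ch (-ξ) z * Complex.exp (I * ∑ ν ∈ S, c ν * ch ν z)) -
      ∑ j ∈ Finset.range (2 * M), (I ^ j / (j.factorial : ℂ)) * (4 * SS S c j ξ)‖ ≤
      ‖(4 / ((2 * M).factorial : ℂ)) * SS S c (2 * M) 0‖ := by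
  have hY : ∀ z, ((∑ ν ∈ S, c ν * ch ν z).re : ℂ) = ∑ ν ∈ S, c ν * ch ν z := fun z =>
    real_of_sym S c hS hc z
  have hYc : Continuous (fun z => ∑ ν ∈ S, c ν * ch ν z) :=
    continuous_finsetSum _ fun ν _ => continuous_const.mul (ch_cont ν)
  set X : ℂ → ℝ := fun z => (∑ ν ∈ S, c ν * ch ν z).re with hX
  have hXc : Continuous X := Complex.continuous_re.comp hYc
  have hY' : ∀ z, ∑ ν ∈ S, c ν * ch ν z = (X z : ℂ) := fun z => (hY z).symm
  have e1 : ∀ j, (I ^ j / (j.factorial : ℂ)) * (4 * SS S c j ξ) =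
      ∫ z in cell 2, ch (-ξ) z * ((I * (X z : ℂ)) ^ j / (j.factorial : ℂ)) := by
    intro j
    rw [← hMOM, ← integral_const_mul]
    congr 1
    funext z
    rw [hY' z, mul_pow]
    ring
  simp_rw [e1, hY']
  have hcX : Continuous fun z => (I * (X z : ℂ)) :=
    continuous_const.mul (Complex.continuous_ofReal.comp hXc)
  rw [← csum (Finset.range (2 * M)) (fun j z => ch (-ξ) z * ((I * (X z : ℂ)) ^ j /
    (j.factorial : ℂ))) (fun j _ => (ch_cont _).mul ((hcX.pow j).div_const _)),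
    ← csub (fun z => ch (-ξ) z * Complex.exp (I * (X z : ℂ))) (fun z => ∑ j ∈ Finset.range (2 * M),
      ch (-ξ) z * ((I * (X z : ℂ)) ^ j / (j.factorial : ℂ)))
    ((ch_cont _).mul (Complex.continuous_exp.comp hcX))
    (continuous_finsetSum _ fun j _ => (ch_cont _).mul ((hcX.pow j).div_const _))]
  have e2 : ∀ z, ‖ch (-ξ) z * Complex.exp (I * (X z : ℂ)) - ∑ j ∈ Finset.range (2 * M),
      ch (-ξ) z * ((I * (X z : ℂ)) ^ j / (j.factorial : ℂ))‖ ≤
      (1 / ((2 * M).factorial : ℝ)) * X z ^ (2 * M) := by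
    intro z
    rw [← Finset.mul_sum, ← mul_sub, norm_mul, norm_ch, one_mul]
    refine (exp_taylor' (2 * M) (X z)).trans_eq ?_
    rw [Even.pow_abs ⟨M, by ring⟩]
    ring
  have e3 : Integrable (fun z => (1 / ((2 * M).factorial : ℝ)) * X z ^ (2 * M))
      (volume.restrict (cell 2)) := cell_integrable 2 (continuous_const.mul (hXc.pow _))
  refine (norm_integral_le_of_norm_le e3 (Filter.Eventually.of_forall e2)).trans ?_
  have e4 : (4 / ((2 * M).factorial : ℂ)) * SS S c (2 * M) 0 =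
      ((∫ z in cell 2, (1 / ((2 * M).factorial : ℝ)) * X z ^ (2 * M) : ℝ) : ℂ) := by
    rw [← integral_complex_ofReal]
    have h1 := hMOM S c (2 * M) 0
    simp only [neg_zero, ch_zero, mul_one] at h1
    simp_rw [hY'] at h1
    have h2 : ∀ z, (((1 / ((2 * M).factorial : ℝ)) * X z ^ (2 * M) : ℝ) : ℂ) =
        (1 / ((2 * M).factorial : ℂ)) * ((X z : ℂ) ^ (2 * M)) := by
      intro z
      push_cast
      ring
    have h3 : ∫ z in cell 2, (((1 / ((2 * M).factorial : ℝ)) * X z ^ (2 * M) : ℝ) : ℂ) =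
        (1 / ((2 * M).factorial : ℂ)) * ∫ z in cell 2, ((X z : ℂ) ^ (2 * M)) := by
      rw [← integral_const_mul]
      congr 1
      funext z
      exact h2 z
    refine Eq.trans ?_ h3.symm
    rw [h1]
    ring
  rw [e4, Complex.norm_real]
  exact Real.le_norm_self _

theorem char_xi (hMOM : S_MOM) (S : ℕ → Finset GI) (hS : ∀ n, ∀ ν ∈ S n, -ν ∈ S n)
    (c : ℕ → GI → ℂ) (hc : ∀ n ν, c n (-ν) = (starRingEnd ℂ) (c n ν)) (v : ℝ)
    (h0 : ∀ k, Tendsto (fun n => SS (S n) (c n) k 0) atTop (𝓝 (gm k v : ℂ))) (ξ : GI) (t : ℂ)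
    (hξ : ∀ k, Tendsto (fun n => SS (S n) (c n) k ξ) atTop (𝓝 (t * (gm k v : ℂ)))) :
    Tendsto (fun n => ∫ z in cell 2, ch (-ξ) z *
      Complex.exp (I * ∑ ν ∈ S n, c n ν * ch ν z)) atTop
      (𝓝 (t * (4 * Complex.exp ((-v / 2 : ℝ))))) := by
  rw [Metric.tendsto_atTop]
  intro ε hε
  -- choice of M
  have a1 : Tendsto (fun M => ∑ m ∈ Finset.range M, (-v / 2) ^ m / (m.factorial : ℝ)) atTop
      (𝓝 (Real.exp (-v / 2))) := by
    have := (NormedSpace.expSeries_div_hasSum_exp (-v / 2 : ℝ)).tendsto_sum_nat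
    rwa [← Real.exp_eq_exp_ℝ] at this
  have a2 : Tendsto (fun M : ℕ => 4 * ((v / 2) ^ M / (M.factorial : ℝ))) atTop (𝓝 0) := by
    have := (FloorSemiring.tendsto_pow_div_factorial_atTop (v / 2 : ℝ)).const_mul 4
    simpa using this
  have a3 : Tendsto (fun M => t * (4 * ((∑ m ∈ Finset.range M, (-v / 2) ^ m /
      (m.factorial : ℝ) : ℝ) : ℂ))) atTop (𝓝 (t * (4 * Complex.exp ((-v / 2 : ℝ))))) := by
    have h1 := ((Complex.continuous_ofReal.tendsto _).comp a1).const_mul (4 : ℂ)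
    have h2 := h1.const_mul t
    rw [← Complex.ofReal_exp]
    exact h2
  obtain ⟨M, hM1, hM2⟩ := (((Metric.tendsto_nhds.1 a3 (ε / 4) (by linarith))).and
    (Metric.tendsto_nhds.1 a2 (ε / 4) (by linarith))).exists
  -- limits in n
  have b1 : Tendsto (fun n => ∑ j ∈ Finset.range (2 * M), (I ^ j / (j.factorial : ℂ)) *
      (4 * SS (S n) (c n) j ξ)) atTop (𝓝 (t * (4 * ((∑ m ∈ Finset.range M, (-v / 2) ^ m /
      (m.factorial : ℝ) : ℝ) : ℂ)))) := by
    rw [← gm_sum]
    have h1 : t * (4 * ∑ j ∈ Finset.range (2 * M), (I ^ j / (j.factorial : ℂ)) * (gm j v : ℂ)) =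
        ∑ j ∈ Finset.range (2 * M), (I ^ j / (j.factorial : ℂ)) * (4 * (t * (gm j v : ℂ))) := by
      rw [Finset.mul_sum, Finset.mul_sum]
      exact Finset.sum_congr rfl fun j _ => by ring
    rw [h1]
    exact tendsto_finsetSum _ fun j _ => ((hξ j).const_mul 4).const_mul _
  have b2 : Tendsto (fun n => ‖(4 / ((2 * M).factorial : ℂ)) * SS (S n) (c n) (2 * M) 0‖) atTop
      (𝓝 ‖(4 / ((2 * M).factorial : ℂ)) * (gm (2 * M) v : ℂ)‖) :=
    ((h0 (2 * M)).const_mul _).norm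
  have b3 : ‖(4 / ((2 * M).factorial : ℂ)) * (gm (2 * M) v : ℂ)‖ < ε / 4 := by
    rw [dist_zero_right, Real.norm_eq_abs] at hM2
    have h1 : (4 / ((2 * M).factorial : ℂ)) * (gm (2 * M) v : ℂ) =
        ((4 * ((v / 2) ^ M / (M.factorial : ℝ)) : ℝ) : ℂ) := by
      rw [← gm_even]
      push_cast
      ring
    rw [h1, Complex.norm_real, Real.norm_eq_abs]
    exact hM2
  have b4 := (Metric.tendsto_nhds.1 b1 (ε / 4) (by linarith)).and (b2.eventually_lt_const b3)
  obtain ⟨N, hN⟩ := eventually_atTop.1 b4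
  refine ⟨N, fun n hn => ?_⟩
  obtain ⟨c1, c2⟩ := hN n hn
  have c3 := SS_abs hMOM (S n) (hS n) (c n) (hc n) ξ M
  rw [dist_eq_norm] at c1 hM1 ⊢
  calc _ ≤ ‖(∫ z in cell 2, ch (-ξ) z * Complex.exp (I * ∑ ν ∈ S n, c n ν * ch ν z)) -
        ∑ j ∈ Finset.range (2 * M), (I ^ j / (j.factorial : ℂ)) * (4 * SS (S n) (c n) j ξ)‖ +
        ‖∑ j ∈ Finset.range (2 * M), (I ^ j / (j.factorial : ℂ)) * (4 * SS (S n) (c n) j ξ) -
        t * (4 * ((∑ m ∈ Finset.range M, (-v / 2) ^ m / (m.factorial : ℝ) : ℝ) : ℂ))‖ +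
        ‖t * (4 * ((∑ m ∈ Finset.range M, (-v / 2) ^ m / (m.factorial : ℝ) : ℝ) : ℂ)) -
          t * (4 * Complex.exp ((-v / 2 : ℝ)))‖ := by
        refine le_trans (le_of_eq ?_) (norm_add₃_le)
        congr 1
        ring
    _ < ε := by linarith

theorem CHAR (hAPX : S_APX) (hMOM : S_MOM) : S_CHAR := by
  intro S hS c hc v hv h0 h1 Ω hΩo hΩb
  classical
  rw [Metric.tendsto_atTop]
  intro ε hε
  obtain ⟨T, a, hTa⟩ := hAPX Ω hΩo hΩb (ε / 8) (by linarith)
  set E : ℂ := Complex.exp ((-v / 2 : ℝ)) with hE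
  have hEn : ‖E‖ ≤ 1 := by
    rw [hE, ← Complex.ofReal_exp, Complex.norm_real, Real.norm_eq_abs, abs_of_pos (Real.exp_pos _)]
    exact Real.exp_le_one_iff.2 (by linarith)
  have hlim : ∀ ξ : GI, Tendsto (fun n => ∫ z in cell 2, ch (-ξ) z *
      Complex.exp (I * ∑ ν ∈ S n, c n ν * ch ν z)) atTop
      (𝓝 ((if ξ = 0 then 1 else 0) * (4 * E))) := by
    intro ξ
    refine char_xi hMOM S hS c hc v h0 ξ _ fun k => ?_
    split_ifs with h
    · rw [h, one_mul]
      exact h0 k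
    · rw [zero_mul]
      exact h1 k ξ h
  set A : ℂ := ∑ ξ ∈ T, a ξ * (if ξ = 0 then 1 else 0) with hA
  have hc1 : ∫ z in cell 2, ‖(1 : ℂ)‖ ^ 2 = 4 := by
    simp only [norm_one, one_pow, integral_const, smul_eq_mul, mul_one, measureReal_def,
      Measure.restrict_apply_univ, cell_vol 2 (by norm_num)]
    norm_num
  have hs4 : √(4 : ℝ) = 2 := by
    rw [show (4 : ℝ) = 2 ^ 2 by norm_num]
    exact Real.sqrt_sq (by norm_num)
  -- G = 1
  have g1 := hTa (fun _ => 1) continuous_const ⟨fun _ => rfl, fun _ => rfl⟩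
  rw [hc1, hs4] at g1
  have g2 : ∫ z in cell 2, (∑ ξ ∈ T, a ξ * ch (-ξ) z) * 1 = 4 * A := by
    simp only [mul_one]
    rw [csum T (fun ξ z => a ξ * ch (-ξ) z) (fun ξ _ => continuous_const.mul (ch_cont _)), hA,
      Finset.mul_sum]
    refine Finset.sum_congr rfl fun ξ _ => ?_
    rw [integral_const_mul, int_ch]
    by_cases h : ξ = 0
    · rw [if_pos h, if_pos (by rw [h, neg_zero])]
      ring
    · rw [if_neg h, if_neg (by rwa [neg_eq_zero])]
      ring
  have g3 : ∫ z in Ω, (1 : ℂ) = (volume.real Ω : ℂ) := by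
    simp
  rw [g2, g3] at g1
  -- the limit
  have b1 : Tendsto (fun n => ∫ z in cell 2, (∑ ξ ∈ T, a ξ * ch (-ξ) z) *
      Complex.exp (I * ∑ ν ∈ S n, c n ν * ch ν z)) atTop (𝓝 (4 * A * E)) := by
    have e1 : ∀ n, ∫ z in cell 2, (∑ ξ ∈ T, a ξ * ch (-ξ) z) *
        Complex.exp (I * ∑ ν ∈ S n, c n ν * ch ν z) = ∑ ξ ∈ T, a ξ * ∫ z in cell 2, ch (-ξ) z *
        Complex.exp (I * ∑ ν ∈ S n, c n ν * ch ν z) := by
      intro n
      have hYc : Continuous (fun z => ∑ ν ∈ S n, c n ν * ch ν z) :=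
        continuous_finsetSum _ fun ν _ => continuous_const.mul (ch_cont ν)
      have e2 : ∀ z, (∑ ξ ∈ T, a ξ * ch (-ξ) z) *
          Complex.exp (I * ∑ ν ∈ S n, c n ν * ch ν z) = ∑ ξ ∈ T, a ξ * (ch (-ξ) z *
          Complex.exp (I * ∑ ν ∈ S n, c n ν * ch ν z)) := by
        intro z
        rw [Finset.sum_mul]
        exact Finset.sum_congr rfl fun ξ _ => by ring
      simp_rw [e2]
      rw [csum T (fun ξ z => a ξ * (ch (-ξ) z * Complex.exp (I * ∑ ν ∈ S n, c n ν * ch ν z)))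
        (fun ξ _ => continuous_const.mul ((ch_cont _).mul
          (Complex.continuous_exp.comp (continuous_const.mul hYc))))]
      exact Finset.sum_congr rfl fun ξ _ => by rw [integral_const_mul]
    simp_rw [e1]
    have e3 : 4 * A * E = ∑ ξ ∈ T, a ξ * ((if ξ = 0 then 1 else 0) * (4 * E)) := by
      rw [hA, Finset.mul_sum, Finset.sum_mul]
      exact Finset.sum_congr rfl fun ξ _ => by ring
    rw [e3]
    exact tendsto_finsetSum _ fun ξ _ => (hlim ξ).const_mul _
  obtain ⟨N, hN⟩ := eventually_atTop.1 (Metric.tendsto_nhds.1 b1 (ε / 4) (by linarith))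
  refine ⟨N, fun n hn => ?_⟩
  have c1 := hN n hn
  -- G = exp (i Y)
  have hYc : Continuous (fun z => ∑ ν ∈ S n, c n ν * ch ν z) :=
    continuous_finsetSum _ fun ν _ => continuous_const.mul (ch_cont ν)
  have c2 := hTa (fun z => Complex.exp (I * ∑ ν ∈ S n, c n ν * ch ν z))
    (Complex.continuous_exp.comp (continuous_const.mul hYc))
    (by
      have hp : Per 2 (fun z => ∑ ν ∈ S n, c n ν * ch ν z) := by
        have hp1 : ∀ ν : GI, Per 2 (ch ν) := by
          intro ν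
          have := ch_per ν 1 one_pos (by simp)
          simpa using this
        exact ⟨fun z => Finset.sum_congr rfl fun ν _ => by rw [(hp1 ν).1 z],
          fun z => Finset.sum_congr rfl fun ν _ => by rw [(hp1 ν).2 z]⟩
      exact ⟨fun z => by simp only [hp.1 z], fun z => by simp only [hp.2 z]⟩)
  have c3 : ∀ z, ‖Complex.exp (I * ∑ ν ∈ S n, c n ν * ch ν z)‖ = 1 := by
    intro z
    rw [← real_of_sym (S n) (c n) (hS n) (hc n) z, mul_comm, Complex.norm_exp_ofReal_mul_I]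
  have c4 : ∫ z in cell 2, ‖Complex.exp (I * ∑ ν ∈ S n, c n ν * ch ν z)‖ ^ 2 = 4 := by
    simp_rw [c3]
    rw [← hc1]
    simp
  rw [c4, hs4] at c2
  rw [dist_eq_norm] at c1 ⊢
  have d1 : ‖4 * A * E - (volume.real Ω : ℂ) * E‖ ≤ ε / 8 * 2 := by
    rw [← sub_mul, norm_mul, norm_sub_rev]
    calc _ ≤ (ε / 8 * 2) * 1 := mul_le_mul g1 hEn (norm_nonneg _) (by linarith)
      _ = _ := by ring
  calc _ ≤ ‖(∫ z in Ω, Complex.exp (I * ∑ ν ∈ S n, c n ν * ch ν z)) -
        ∫ z in cell 2, (∑ ξ ∈ T, a ξ * ch (-ξ) z) *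
          Complex.exp (I * ∑ ν ∈ S n, c n ν * ch ν z)‖ +
        ‖(∫ z in cell 2, (∑ ξ ∈ T, a ξ * ch (-ξ) z) *
          Complex.exp (I * ∑ ν ∈ S n, c n ν * ch ν z)) - 4 * A * E‖ +
        ‖4 * A * E - (volume.real Ω : ℂ) * E‖ := by
        refine le_trans (le_of_eq ?_) (norm_add₃_le)
        congr 1
        ring
    _ < ε := by linarith

end

end Pool.Agent.L0h77.BW
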