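import Pool.Agent.L0h77.BW.Defs

/-! BW/FR: the dimensions of the eigenspaces of the unit square. -/

set_option autoImplicit false
open MeasureTheory Filter Topology Complex
open scoped ContDiff

namespace Pool.Agent.L0h77.BW

open Pool.Agent.L0h56.BQ

noncomputable section

/-- the product function -/
def ww (σ : ℝ) (p : ℕ × ℕ) (z : ℂ) : ℝ :=
  (σ * Real.cos (Real.pi * p.1 * z.re + Real.pi * p.2 * z.im) +
    Real.cos (Real.pi * p.1 * z.re - Real.pi * p.2 * z.im)) / 2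

theorem ww_sin (a b : ℕ) : sinw a b = ww (-1) (a, b) := by
  funext z
  unfold sinw ww
  rw [Real.cos_add, Real.cos_sub]
  ring

theorem ww_cos (a b : ℕ) : cosw a b = ww 1 (a, b) := by
  funext z
  unfold cosw ww
  rw [Real.cos_add, Real.cos_sub]
  ring

theorem ch_cos (a b : ℤ) (z : ℂ) : ((Real.cos (Real.pi * a * z.re + Real.pi * b * z.im) : ℝ) : ℂ) =
    (ch ⟨a, b⟩ z + ch ⟨-a, -b⟩ z) / 2 := by
  unfold ch
  rw [Complex.ofReal_cos, Complex.cos]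
  congr 3
  · push_cast
    ring
  · push_cast
    ring

theorem ww_ch (σ : ℝ) (p : ℕ × ℕ) (z : ℂ) : (ww σ p z : ℂ) =
    (σ * ch ⟨p.1, p.2⟩ z + σ * ch ⟨-p.1, -p.2⟩ z + ch ⟨p.1, -p.2⟩ z + ch ⟨-p.1, p.2⟩ z) / 4 := by
  have h1 := ch_cos p.1 p.2 z
  have h2 := ch_cos p.1 (-p.2) z
  have h3 : Real.pi * p.1 * z.re - Real.pi * p.2 * z.im =
      Real.pi * ((p.1 : ℤ) : ℝ) * z.re + Real.pi * ((-(p.2 : ℤ) : ℤ) : ℝ) * z.im := by
    push_cast
    ring
  have h4 : Real.pi * p.1 * z.re + Real.pi * p.2 * z.im =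
      Real.pi * ((p.1 : ℤ) : ℝ) * z.re + Real.pi * ((p.2 : ℤ) : ℝ) * z.im := by
    push_cast
    ring
  unfold ww
  rw [h3, h4]
  push_cast at h1 h2 ⊢
  rw [h1, h2, neg_neg]
  ring

theorem int_ch2 (a b a₀ b₀ : ℤ) : ∫ z in cell 2, ch ⟨a, b⟩ z * ch ⟨-a₀, -b₀⟩ z =
    if a = a₀ ∧ b = b₀ then 4 else 0 := by
  have h1 : ∀ z, ch ⟨a, b⟩ z * ch ⟨-a₀, -b₀⟩ z = ch (⟨a, b⟩ + ⟨-a₀, -b₀⟩) z := fun z => by
    rw [ch_add]
  simp_rw [h1]
  rw [int_ch]
  have h2 : ((⟨a, b⟩ : GaussianInt) + ⟨-a₀, -b₀⟩ = 0) ↔ (a = a₀ ∧ b = b₀) := by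
    rw [Zsqrtd.ext_iff]
    simp only [Zsqrtd.re_add, Zsqrtd.im_add, Zsqrtd.re_zero, Zsqrtd.im_zero]
    constructor
    · rintro ⟨h, h'⟩
      constructor <;> omega
    · rintro ⟨h, h'⟩
      constructor <;> omega
  by_cases h : a = a₀ ∧ b = b₀
  · rw [if_pos h, if_pos (h2.2 h)]
  · rw [if_neg h, if_neg (fun h' => h (h2.1 h'))]

theorem int4 (F1 F2 F3 F4 : ℂ → ℂ) (h1 : Continuous F1) (h2 : Continuous F2)
    (h3 : Continuous F3) (h4 : Continuous F4) :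
    ∫ z in cell 2, (F1 z + F2 z + F3 z + F4 z) = (∫ z in cell 2, F1 z) + (∫ z in cell 2, F2 z) +
      (∫ z in cell 2, F3 z) + ∫ z in cell 2, F4 z := by
  rw [cadd (fun z => F1 z + F2 z + F3 z) F4 ((h1.add h2).add h3) h4,
    cadd (fun z => F1 z + F2 z) F3 (h1.add h2) h3, cadd F1 F2 h1 h2]

/-- the coefficient -/
def JJ (σ : ℝ) (p q : ℕ × ℕ) : ℝ :=
  σ * (if (p.1 : ℤ) = q.1 ∧ (p.2 : ℤ) = q.2 then 1 else 0) +
    σ * (if -(p.1 : ℤ) = q.1 ∧ -(p.2 : ℤ) = q.2 then 1 else 0) +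
    (if (p.1 : ℤ) = q.1 ∧ -(p.2 : ℤ) = q.2 then 1 else 0) +
    (if -(p.1 : ℤ) = q.1 ∧ (p.2 : ℤ) = q.2 then 1 else 0)

theorem ww_int (σ : ℝ) (p q : ℕ × ℕ) :
    ∫ z in cell 2, (ww σ p z : ℂ) * ch ⟨-q.1, -q.2⟩ z = (JJ σ p q : ℂ) := by
  have h1 : ∀ z, (ww σ p z : ℂ) * ch ⟨-q.1, -q.2⟩ z =
      (σ / 4) * (ch ⟨p.1, p.2⟩ z * ch ⟨-q.1, -q.2⟩ z) +
      (σ / 4) * (ch ⟨-p.1, -p.2⟩ z * ch ⟨-q.1, -q.2⟩ z) +
      (1 / 4) * (ch ⟨p.1, -p.2⟩ z * ch ⟨-q.1, -q.2⟩ z) +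
      (1 / 4) * (ch ⟨-p.1, p.2⟩ z * ch ⟨-q.1, -q.2⟩ z) := by
    intro z
    rw [ww_ch]
    ring
  simp_rw [h1]
  have hc : ∀ (r : ℂ) (ν ν' : GaussianInt), Continuous fun z => r * (ch ν z * ch ν' z) :=
    fun r ν ν' => continuous_const.mul ((ch_cont ν).mul (ch_cont ν'))
  rw [int4 (fun z => (σ / 4 : ℂ) * (ch ⟨p.1, p.2⟩ z * ch ⟨-q.1, -q.2⟩ z))
    (fun z => (σ / 4 : ℂ) * (ch ⟨-p.1, -p.2⟩ z * ch ⟨-q.1, -q.2⟩ z))
    (fun z => (1 / 4 : ℂ) * (ch ⟨p.1, -p.2⟩ z * ch ⟨-q.1, -q.2⟩ z))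
    (fun z => (1 / 4 : ℂ) * (ch ⟨-p.1, p.2⟩ z * ch ⟨-q.1, -q.2⟩ z))
    (hc _ _ _) (hc _ _ _) (hc _ _ _) (hc _ _ _),
    integral_const_mul, integral_const_mul, integral_const_mul, integral_const_mul,
    int_ch2, int_ch2, int_ch2, int_ch2]
  unfold JJ
  push_cast
  split_ifs <;> push_cast <;> ring

theorem indep_ww (σ : ℝ) (s : Finset (ℕ × ℕ)) (h0 : ∀ p ∈ s, ∀ q ∈ s, p ≠ q → JJ σ p q = 0)
    (h1 : ∀ p ∈ s, JJ σ p p ≠ 0) :
    LinearIndependent ℝ (fun p : {p // p ∈ s} => ww σ p.1) := by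
  rw [Fintype.linearIndependent_iff]
  intro g hg q
  have hc : ∀ p : ℕ × ℕ, Continuous (ww σ p) := by
    intro p
    unfold ww
    fun_prop
  have h2 : ∀ z : ℂ, ∑ p : {p // p ∈ s}, ((g p : ℂ) * ((ww σ p.1 z : ℂ) * ch ⟨-q.1.1, -q.1.2⟩ z)) =
      0 := by
    intro z
    have h3 := congrFun hg z
    have h4 : ∑ p : {p // p ∈ s}, g p * ww σ p.1 z = 0 := by
      simpa [Finset.sum_apply] using h3
    have h5 : (((∑ p : {p // p ∈ s}, g p * ww σ p.1 z : ℝ)) : ℂ) * ch ⟨-q.1.1, -q.1.2⟩ z = 0 := by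
      rw [h4]
      simp
    push_cast at h5
    rw [Finset.sum_mul] at h5
    rw [← h5]
    exact Finset.sum_congr rfl fun p _ => by ring
  have h3 : ∫ z in cell 2, ∑ p : {p // p ∈ s},
      ((g p : ℂ) * ((ww σ p.1 z : ℂ) * ch ⟨-q.1.1, -q.1.2⟩ z)) = 0 := by
    simp_rw [h2]
    simp
  rw [csum Finset.univ (fun (p : {p // p ∈ s}) z => (g p : ℂ) * ((ww σ p.1 z : ℂ) *
    ch ⟨-q.1.1, -q.1.2⟩ z)) (fun p _ => continuous_const.mul ((Complex.continuous_ofReal.comp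
    (hc p.1)).mul (ch_cont _)))] at h3
  have h4 : ∀ p : {p // p ∈ s}, ∫ z in cell 2, ((g p : ℂ) * ((ww σ p.1 z : ℂ) *
      ch ⟨-q.1.1, -q.1.2⟩ z)) = ((g p * JJ σ p.1 q.1 : ℝ) : ℂ) := by
    intro p
    rw [integral_const_mul, ww_int]
    push_cast
    rfl
  rw [Finset.sum_congr rfl fun p _ => h4 p, Finset.sum_eq_single q] at h3
  · have h5 : g q * JJ σ q.1 q.1 = 0 := by exact_mod_cast h3
    exact (mul_eq_zero.1 h5).resolve_right (h1 q.1 q.2)
  · intro p _ hpq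
    rw [h0 p.1 p.2 q.1 q.2 (fun h => hpq (Subtype.ext h)), mul_zero]
    simp
  · intro h
    exact absurd (Finset.mem_univ _) h

theorem le_of_sq {a b e : ℕ} (h : a ^ 2 + b ^ 2 = e) : a < e + 1 ∧ b < e + 1 := by
  have h1 : a ≤ a ^ 2 := Nat.le_self_pow (by norm_num) a
  have h2 : b ≤ b ^ 2 := Nat.le_self_pow (by norm_num) b
  constructor <;> omega

theorem FR : S_FR := by
  intro e
  constructor
  · set s := (Finset.range (e + 1) ×ˢ Finset.range (e + 1)).filter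
      fun p : ℕ × ℕ => 0 < p.1 ∧ 0 < p.2 ∧ p.1 ^ 2 + p.2 ^ 2 = e with hs
    have hmem : ∀ p, p ∈ s ↔ 0 < p.1 ∧ 0 < p.2 ∧ p.1 ^ 2 + p.2 ^ 2 = e := by
      intro p
      rw [hs, Finset.mem_filter, Finset.mem_product, Finset.mem_range, Finset.mem_range]
      exact ⟨fun h => h.2, fun h => ⟨le_of_sq h.2.2, h⟩⟩
    have hind := indep_ww (-1) s (by
      intro p hp q hq hpq
      have hp' := (hmem p).1 hp
      have hq' := (hmem q).1 hq
      unfold JJ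
      rw [if_neg, if_neg, if_neg, if_neg]
      · ring
      · rintro ⟨h1, h2⟩; omega
      · rintro ⟨h1, h2⟩; omega
      · rintro ⟨h1, h2⟩; omega
      · rintro ⟨h1, h2⟩
        exact hpq (Prod.ext (by exact_mod_cast h1) (by exact_mod_cast h2))) (by
      intro p hp
      have hp' := (hmem p).1 hp
      unfold JJ
      rw [if_pos ⟨rfl, rfl⟩, if_neg, if_neg, if_neg]
      · norm_num
      · rintro ⟨h1, h2⟩; omega
      · rintro ⟨h1, h2⟩; omega
      · rintro ⟨h1, h2⟩; omega)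
    have hspan : DirE e = Submodule.span ℝ (Set.range fun p : {p // p ∈ s} => ww (-1) p.1) := by
      apply le_antisymm
      · unfold DirE
        rw [Submodule.span_le]
        rintro f ⟨a, b, hab, rfl⟩
        by_cases h : 0 < a ∧ 0 < b
        · refine Submodule.subset_span ⟨⟨(a, b), (hmem _).2 ⟨h.1, h.2, hab⟩⟩, ?_⟩
          exact (ww_sin a b).symm
        · have h0 : sinw a b = 0 := by
            funext z
            unfold sinw
            rcases Nat.eq_zero_or_pos a with h1 | h1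
            · rw [h1]
              simp
            · have h2 : b = 0 := by omega
              rw [h2]
              simp
          rw [h0]
          exact Submodule.zero_mem _
      · rw [Submodule.span_le]
        rintro f ⟨p, rfl⟩
        refine Submodule.subset_span ⟨p.1.1, p.1.2, ((hmem _).1 p.2).2.2, ?_⟩
        exact (ww_sin _ _).symm
    rw [hspan, finrank_span_eq_card hind, Fintype.card_coe]
    rfl
  · set s := (Finset.range (e + 1) ×ˢ Finset.range (e + 1)).filter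
      fun p : ℕ × ℕ => p.1 ^ 2 + p.2 ^ 2 = e with hs
    have hmem : ∀ p, p ∈ s ↔ p.1 ^ 2 + p.2 ^ 2 = e := by
      intro p
      rw [hs, Finset.mem_filter, Finset.mem_product, Finset.mem_range, Finset.mem_range]
      exact ⟨fun h => h.2, fun h => ⟨le_of_sq h, h⟩⟩
    have hind := indep_ww 1 s (by
      intro p hp q hq hpq
      unfold JJ
      rw [if_neg, if_neg, if_neg, if_neg]
      · ring
      · rintro ⟨h1, h2⟩
        exact hpq (Prod.ext (by omega) (by omega))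
      · rintro ⟨h1, h2⟩
        exact hpq (Prod.ext (by omega) (by omega))
      · rintro ⟨h1, h2⟩
        exact hpq (Prod.ext (by omega) (by omega))
      · rintro ⟨h1, h2⟩
        exact hpq (Prod.ext (by omega) (by omega))) (by
      intro p hp
      unfold JJ
      rw [if_pos ⟨rfl, rfl⟩]
      have h1 : ∀ P : Prop, ∀ [Decidable P], (0 : ℝ) ≤ if P then 1 else 0 := fun P _ => by
        split_ifs <;> norm_num
      have a1 := h1 (-(p.1 : ℤ) = p.1 ∧ -(p.2 : ℤ) = p.2)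
      have a2 := h1 ((p.1 : ℤ) = p.1 ∧ -(p.2 : ℤ) = p.2)
      have a3 := h1 (-(p.1 : ℤ) = p.1 ∧ (p.2 : ℤ) = p.2)
      apply ne_of_gt
      linarith)
    have hspan : NeuE e = Submodule.span ℝ (Set.range fun p : {p // p ∈ s} => ww 1 p.1) := by
      apply le_antisymm
      · unfold NeuE
        rw [Submodule.span_le]
        rintro f ⟨a, b, hab, rfl⟩
        refine Submodule.subset_span ⟨⟨(a, b), (hmem _).2 hab⟩, ?_⟩
        exact (ww_cos a b).symm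
      · rw [Submodule.span_le]
        rintro f ⟨p, rfl⟩
        refine Submodule.subset_span ⟨p.1.1, p.1.2, (hmem _).1 p.2, ?_⟩
        exact (ww_cos _ _).symm
    rw [hspan, finrank_span_eq_card hind, Fintype.card_coe]
    rfl

end

end Pool.Agent.L0h77.BW
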