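import Pool.Agent.L0h77.BW.Defs

/-! BW/POLY: quantum ergodic sequences with good energies have the random wave limit. -/

set_option autoImplicit false
open MeasureTheory Filter Topology Complex
open scoped ContDiff

namespace Pool.Agent.L0h77.BW

open Pool.Agent.L0h56.BQ
open Pool.Agent.N661.BR (MW lin J0 resc IsCutoff IsQuantumErgodic IsRandomWave IsLocalLimit)
open Pool.Agent.W745.RW (TF Dp)

noncomputable section

theorem torus_lim_good (hGL : S_GL) (E : ℕ → ℕ) (κ : ℕ → ℝ) (hG : Good E κ)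
    (b : ℕ → GI → ℂ)
    (hb : ∀ n ν, b n (-ν) = (starRingEnd ℂ) (b n ν))
    (hb1 : ∀ n, ∑ ν ∈ V (E n), ‖b n ν‖ ^ 2 = 1)
    (hbκ : ∀ n, ∀ ν ∈ V (E n), ‖b n ν‖ ≤ κ n)
    (hA : ∀ q : ℤ, q ≠ 0 → Tendsto (fun n => ∑ ν ∈ V (E n), ((‖b n ν‖ ^ 2 : ℝ) : ℂ) *
      Complex.exp (I * (q * dirn ν : ℝ))) atTop (𝓝 0))
    (u : ℕ → ℂ → ℝ) (hu : ∀ n z, (u n z : ℂ) = ∑ ν ∈ V (E n), b n ν * ch ν z)
    (Ω₀ : Set ℂ) (ho₀ : IsOpen Ω₀)
    (Ω : Set ℂ) (ho : IsOpen Ω) (hbd : Bornology.IsBounded Ω) (hne : Ω.Nonempty) (hsub : Ω ⊆ Ω₀)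
    (χ : ℝ → ℝ) (hχ : IsCutoff χ) (K : ℕ) (w : Fin K → ℂ) (t : Fin K → ℝ) :
    Tendsto (fun n => (1 / volume.real Ω : ℝ) * ∫ z in Ω,
      Complex.exp (I * ((∑ j, t j * resc χ Ω₀ (lamE (E n)) (u n) z (w j) : ℝ) : ℂ))) atTop
      (𝓝 (Complex.exp ((-(∑ i, ∑ j, t i * t j * J0 ‖w i - w j‖) / 2 : ℝ)))) := by
  have hvol : volume Ω ≠ ⊤ := hbd.measure_lt_top.ne
  have hvr : volume.real Ω ≠ 0 := by
    rw [measureReal_def]
    exact (ENNReal.toReal_pos (ho.measure_pos volume hne).ne' hvol).ne'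
  have hE : ∀ n, 0 < E n := hG.pos
  have huc : ∀ n, Continuous (u n) := by
    intro n
    have h1 : Continuous fun z => (u n z : ℂ) := by
      simp_rw [hu n]
      exact continuous_finsetSum _ fun ν _ => continuous_const.mul (ch_cont ν)
    have h2 := Complex.continuous_re.comp h1
    refine h2.congr fun z => ?_
    simp
  have hlam : Tendsto (fun n => lamE (E n)) atTop atTop := by
    unfold lamE
    refine Tendsto.const_mul_atTop (by positivity) ?_
    exact tendsto_natCast_atTop_atTop.comp hG.top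
  set c : ℕ → GaussianInt → ℂ := fun n ν => b n ν * TT (E n) w t ν with hc
  have hcs : ∀ n ν, c n (-ν) = (starRingEnd ℂ) (c n ν) := fun n ν => by
    simp only [hc]
    rw [hb, TT_neg, map_mul]
  set T0 : ℝ := ∑ j, |t j| with hT0
  have hT00 : 0 ≤ T0 := Finset.sum_nonneg fun _ _ => abs_nonneg _
  have hcκ : ∀ n, ∀ ν ∈ V (E n), ‖c n ν‖ ≤ T0 * κ n := by
    intro n ν hν
    simp only [hc]
    rw [norm_mul, mul_comm]
    exact mul_le_mul (TT_norm _ w t ν) (hbκ n ν hν) (norm_nonneg _) hT00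
  have hv : Tendsto (fun n => ∑ ν ∈ V (E n), ‖c n ν‖ ^ 2) atTop
      (𝓝 (∑ i, ∑ j, t i * t j * J0 ‖w i - w j‖)) := by
    have h1 : ∀ n, ∑ ν ∈ V (E n), ‖c n ν‖ ^ 2 = ∑ i, ∑ j, t i * t j *
        ∑ ν ∈ V (E n), ‖b n ν‖ ^ 2 * Real.cos ((w i - w j).re * Real.cos (dirn ν) +
          (w i - w j).im * Real.sin (dirn ν)) := by
      intro n
      have h2 : ∀ ν ∈ V (E n), ‖c n ν‖ ^ 2 = ∑ i, ∑ j, t i * t j *
          (‖b n ν‖ ^ 2 * Real.cos ((w i - w j).re * Real.cos (dirn ν) +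
          (w i - w j).im * Real.sin (dirn ν))) := by
        intro ν hν
        simp only [hc]
        rw [norm_mul, mul_pow, TT_sq _ (hE n) w t ν hν, Finset.mul_sum]
        refine Finset.sum_congr rfl fun i _ => ?_
        rw [Finset.mul_sum]
        refine Finset.sum_congr rfl fun j _ => ?_
        ring
      rw [Finset.sum_congr rfl h2, Finset.sum_comm]
      refine Finset.sum_congr rfl fun i _ => ?_
      rw [Finset.sum_comm]
      refine Finset.sum_congr rfl fun j _ => ?_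
      rw [Finset.mul_sum]
    simp_rw [h1]
    refine tendsto_finsetSum _ fun i _ => tendsto_finsetSum _ fun j _ => ?_
    exact (weyl_cov (fun n => V (E n)) (fun n ν => ‖b n ν‖ ^ 2)
      (fun n ν _ => by positivity) hb1 hA (w i - w j)).const_mul _
  have hg := hGL E κ hG c hcs T0 hT00 hcκ _ hv Ω ho hbd
  have hlin : ∀ n z, ((∑ j, t j * u n (z + w j / (√(lamE (E n)) : ℝ)) : ℝ) : ℂ) =
      ∑ ν ∈ V (E n), c n ν * ch ν z := by
    intro n z
    push_cast
    simp_rw [hu, ch_shift]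
    have h1 : ∀ j : Fin K, (t j : ℂ) * ∑ ν ∈ V (E n),
        b n ν * (ch ν z * Complex.exp (I * (ph (E n) (w j) ν : ℝ))) =
        ∑ ν ∈ V (E n), b n ν * ((t j : ℂ) *
          Complex.exp (I * (ph (E n) (w j) ν : ℝ))) * ch ν z := by
      intro j
      rw [Finset.mul_sum]
      exact Finset.sum_congr rfl fun ν _ => by ring
    rw [Finset.sum_congr rfl fun j _ => h1 j, Finset.sum_comm]
    refine Finset.sum_congr rfl fun ν _ => ?_
    simp only [hc]
    unfold TT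
    rw [Finset.mul_sum, Finset.sum_mul]
  have hg2 := cutoff Ω₀ ho₀ Ω ho hbd hsub χ hχ (fun n => lamE (E n)) hlam u huc K w t _
    (hg.congr fun n => by simp_rw [hlin])
  have hg3 := hg2.const_mul ((1 / volume.real Ω : ℝ) : ℂ)
  convert hg3 using 2
  have : (volume.real Ω : ℂ) ≠ 0 := by exact_mod_cast hvr
  push_cast
  field_simp

theorem POLY (hGL : S_GL) : S_POLY := by
  intro E κ hG σ hσ b u hr hbκ Ω hΩ hne hn hq Ω' ho' hne' hsub χ hχ K w t
  refine torus_lim_good hGL E κ hG (fun n ν => (b n ν : ℂ)) ?_ ?_ ?_ ?_ u (fun n => (hr n).eq)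
    Ω hΩ.op Ω' ho' (hΩ.bd.subset hsub) hne' hsub χ hχ K w t
  · intro n ν
    rw [(hr n).neg, Complex.conj_ofReal]
  · intro n
    rw [← norm_one' hσ hr hΩ hne hn n]
    refine Finset.sum_congr rfl fun ν _ => ?_
    rw [Complex.norm_real, Real.norm_eq_abs, sq_abs]
  · intro n ν hν
    rw [Complex.norm_real, Real.norm_eq_abs]
    exact hbκ n ν hν
  · intro q hq0
    exact ang_of_even hG.pos hr (fun q hq1 => qe_even hσ hG.pos hr hΩ hne hn hq q hq1) hσ q hq0

end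

end Pool.Agent.L0h77.BW
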