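import Pool.Agent.L0h77.BW.Defs

/-! BW/QEG: equidistributed directions imply quantum ergodicity. -/

set_option autoImplicit false
open MeasureTheory Filter Topology Complex
open scoped ContDiff

namespace Pool.Agent.L0h77.BW

open Pool.Agent.L0h56.BQ
open Pool.Agent.N661.BR (MW lin J0 resc IsCutoff IsQuantumErgodic IsRandomWave IsLocalLimit)
open Pool.Agent.W745.RW (TF Dp)

noncomputable section

namespace QEG

/-! ### periodisation -/

/-- the lattice vector -/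
def tv (p : ℤ × ℤ) : ℂ := (p.1 : ℂ) * ((2 : ℝ) : ℂ) + (p.2 : ℂ) * (((2 : ℝ) : ℂ) * I)

theorem tv_re (p : ℤ × ℤ) : (tv p).re = 2 * p.1 := by
  simp [tv, mul_comm]

theorem tv_im (p : ℤ × ℤ) : (tv p).im = 2 * p.2 := by
  simp [tv, mul_comm]

theorem tv_add (p q : ℤ × ℤ) : tv (p + q) = tv q + tv p := by
  simp only [tv, Prod.fst_add, Prod.snd_add, Int.cast_add]
  ring

theorem per_tv {F : ℂ → ℂ} (h : Per 2 F) (p : ℤ × ℤ) (z : ℂ) : F (z + tv p) = F z := by
  have h1 : Function.Periodic F (((2 : ℝ) : ℂ)) := h.1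
  have h2 : Function.Periodic F (((2 : ℝ) : ℂ) * I) := h.2
  exact ((h1.int_mul p.1).add_period (h2.int_mul p.2)) z

/-- the translate of the cell -/
def dom (p : ℤ × ℤ) : Set ℂ := (fun w => w - tv p) ⁻¹' cell 2

theorem mem_dom (p : ℤ × ℤ) (w : ℂ) : w ∈ dom p ↔
    (2 * (p.1 : ℝ) < w.re ∧ w.re ≤ 2 * (p.1 : ℝ) + 2) ∧
      (2 * (p.2 : ℝ) < w.im ∧ w.im ≤ 2 * (p.2 : ℝ) + 2) := by
  show ((w - tv p).re ∈ Set.Ioc (0:ℝ) 2 ∧ (w - tv p).im ∈ Set.Ioc (0:ℝ) 2) ↔ _
  rw [Complex.sub_re, Complex.sub_im, tv_re, tv_im, Set.mem_Ioc, Set.mem_Ioc]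
  constructor
  · rintro ⟨⟨h1, h2⟩, h3, h4⟩
    exact ⟨⟨by linarith, by linarith⟩, by linarith, by linarith⟩
  · rintro ⟨⟨h1, h2⟩, h3, h4⟩
    exact ⟨⟨by linarith, by linarith⟩, by linarith, by linarith⟩

theorem int_uniq {a b : ℤ} {x : ℝ} (h1 : 2 * (a : ℝ) < x) (h2 : x ≤ 2 * (a : ℝ) + 2)
    (h3 : 2 * (b : ℝ) < x) (h4 : x ≤ 2 * (b : ℝ) + 2) : a = b := by
  have h5 : (a : ℝ) < b + 1 := by linarith
  have h6 : (b : ℝ) < a + 1 := by linarith
  have h7 : a < b + 1 := by exact_mod_cast h5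
  have h8 : b < a + 1 := by exact_mod_cast h6
  omega

theorem dom_disj {p q : ℤ × ℤ} (h : p ≠ q) : Disjoint (dom p) (dom q) := by
  rw [Set.disjoint_left]
  intro w hp hq
  rw [mem_dom] at hp hq
  exact h (Prod.ext (int_uniq hp.1.1 hp.1.2 hq.1.1 hq.1.2) (int_uniq hp.2.1 hp.2.2 hq.2.1 hq.2.2))

theorem dom_cover (w : ℂ) : ∃ p, w ∈ dom p := by
  have h : ∀ x : ℝ, ∃ a : ℤ, 2 * (a : ℝ) < x ∧ x ≤ 2 * (a : ℝ) + 2 := by
    intro x
    refine ⟨⌈x / 2⌉ - 1, ?_, ?_⟩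
    · have := Int.ceil_lt_add_one (x / 2)
      push_cast
      linarith
    · have := Int.le_ceil (x / 2)
      push_cast
      linarith
  obtain ⟨a, ha⟩ := h w.re
  obtain ⟨b, hb⟩ := h w.im
  exact ⟨(a, b), (mem_dom _ _).2 ⟨ha, hb⟩⟩

/-- the box -/
def box (N : ℕ) : Finset (ℤ × ℤ) :=
  Finset.Icc (-(N : ℤ)) N ×ˢ Finset.Icc (-(N : ℤ)) N

theorem mem_box {R ρ : ℝ} {N : ℕ} (hN : R + ρ ≤ 2 * N) {w : ℂ} {p : ℤ × ℤ} (hw : ‖w‖ ≤ ρ)
    (h : ‖w + tv p‖ ≤ R) : p ∈ box N := by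
  have h1 := (Complex.abs_re_le_norm (w + tv p)).trans h
  have h2 := (Complex.abs_im_le_norm (w + tv p)).trans h
  have h3 := (Complex.abs_re_le_norm w).trans hw
  have h4 := (Complex.abs_im_le_norm w).trans hw
  rw [Complex.add_re, tv_re] at h1
  rw [Complex.add_im, tv_im] at h2
  rw [abs_le] at h1 h2 h3 h4
  have key : ∀ a : ℤ, ∀ x : ℝ, -R ≤ x + 2 * a → x + 2 * a ≤ R → -ρ ≤ x → x ≤ ρ →
      -(N : ℤ) ≤ a ∧ a ≤ N := by
    intro a x h5 h6 h7 h8
    constructor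
    · have : (-(N : ℝ)) ≤ (a : ℝ) := by linarith
      exact_mod_cast this
    · have : (a : ℝ) ≤ (N : ℝ) := by linarith
      exact_mod_cast this
  rw [box, Finset.mem_product, Finset.mem_Icc, Finset.mem_Icc]
  exact ⟨key _ _ h1.1 h1.2 h3.1 h3.2, key _ _ h2.1 h2.2 h4.1 h4.2⟩

/-- the periodisation -/
def Ph (φ : ℂ → ℝ) (z : ℂ) : ℂ := ∑ᶠ p : ℤ × ℤ, ((φ (z + tv p) : ℝ) : ℂ)

theorem Ph_per (φ : ℂ → ℝ) : Per 2 (Ph φ) := by
  have h : ∀ q : ℤ × ℤ, ∀ z, Ph φ (z + tv q) = Ph φ z := by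
    intro q z
    unfold Ph
    rw [← finsum_comp_equiv (Equiv.addRight q) (f := fun p : ℤ × ℤ => ((φ (z + tv p) : ℝ) : ℂ))]
    refine finsum_congr fun p => ?_
    show ((φ (z + tv q + tv p) : ℝ) : ℂ) = ((φ (z + tv (p + q)) : ℝ) : ℂ)
    rw [tv_add, add_assoc]
  constructor
  · intro z
    have := h (1, 0) z
    simpa [tv] using this
  · intro z
    have := h (0, 1) z
    simpa [tv] using this

theorem Ph_cont (φ : ℂ → ℝ) (hφ : Continuous φ) (R : ℝ) (hR : ∀ w, φ w ≠ 0 → ‖w‖ ≤ R) :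
    Continuous (Ph φ) := by
  unfold Ph
  refine continuous_finsum (fun p => Complex.continuous_ofReal.comp
    (hφ.comp (continuous_id.add continuous_const))) ?_
  intro z
  refine ⟨Metric.ball z 1, Metric.ball_mem_nhds z one_pos, ?_⟩
  obtain ⟨N, hN⟩ := exists_nat_ge (R + (‖z‖ + 1))
  have hN0 : (0 : ℝ) ≤ N := Nat.cast_nonneg N
  refine Set.Finite.subset (box N).finite_toSet ?_
  rintro p ⟨w, hw1, hw2⟩
  have h1 : φ (w + tv p) ≠ 0 := by
    intro h
    apply hw1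
    show ((φ (w + tv p) : ℝ) : ℂ) = 0
    rw [h, Complex.ofReal_zero]
  rw [Metric.mem_ball, dist_eq_norm] at hw2
  refine mem_box (R := R) (ρ := ‖z‖ + 1) (by linarith) (w := w) ?_ (hR _ h1)
  calc ‖w‖ = ‖z + (w - z)‖ := by congr 1; ring
    _ ≤ ‖z‖ + ‖w - z‖ := norm_add_le _ _
    _ ≤ ‖z‖ + 1 := by linarith

theorem unfold_int (φ : ℂ → ℝ) (hφ : Continuous φ) (hc : HasCompactSupport φ)
    (R : ℝ) (hR : ∀ w, φ w ≠ 0 → ‖w‖ ≤ R) (F : ℂ → ℂ) (hF : Continuous F) (hp : Per 2 F) :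
    ∫ z, (φ z : ℂ) * F z = ∫ z in cell 2, Ph φ z * F z := by
  obtain ⟨N, hN⟩ := exists_nat_ge (R + 4)
  have hN0 : (0 : ℝ) ≤ N := Nat.cast_nonneg N
  set g : ℂ → ℂ := fun z => (φ z : ℂ) * F z with hg
  have hgc : Continuous g := (Complex.continuous_ofReal.comp hφ).mul hF
  have hgi : Integrable g := hgc.integrable_of_hasCompactSupport
    (HasCompactSupport.mul_right (hc.comp_left (g := fun x : ℝ => (x : ℂ)) (by simp)))
  have hcell : ∀ z ∈ cell 2, ‖z‖ ≤ 4 := by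
    intro z hz
    have h1 := cell_sub 2 hz
    rw [mem_closedBall_zero_iff] at h1
    refine h1.trans (le_of_eq ?_)
    norm_num
  have h1 : ∀ z ∈ cell 2, Ph φ z * F z = ∑ p ∈ box N, g (z + tv p) := by
    intro z hz
    unfold Ph
    rw [finsum_eq_sum_of_support_subset (s := box N), Finset.sum_mul]
    · refine Finset.sum_congr rfl fun p _ => ?_
      show _ = (φ (z + tv p) : ℂ) * F (z + tv p)
      rw [per_tv hp]
    · intro p hp1
      have h2 : φ (z + tv p) ≠ 0 := by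
        intro h
        apply hp1
        show ((φ (z + tv p) : ℝ) : ℂ) = 0
        rw [h, Complex.ofReal_zero]
      exact mem_box (R := R) (ρ := 4) (by linarith) (hcell z hz) (hR _ h2)
  rw [setIntegral_congr_fun (cell_meas 2) h1,
    csum (box N) (fun p z => g (z + tv p)) (fun p _ => hgc.comp (continuous_id.add continuous_const))]
  have h2 : ∀ p : ℤ × ℤ, ∫ z in cell 2, g (z + tv p) = ∫ z in dom p, g z := by
    intro p
    have h3 := (measurePreserving_add_right (volume : Measure ℂ) (tv p)).setIntegral_preimage_emb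
      (measurableEmbedding_addRight (tv p)) g (dom p)
    rw [← h3]
    have h4 : (fun x => x + tv p) ⁻¹' dom p = cell 2 := by
      ext z
      show (z + tv p) - tv p ∈ cell 2 ↔ _
      rw [add_sub_cancel_right]
    rw [h4]
  have hdm : ∀ p : ℤ × ℤ, MeasurableSet (dom p) := fun p =>
    (cell_meas 2).preimage (measurable_id.sub_const _)
  rw [Finset.sum_congr rfl fun p _ => h2 p, ← integral_biUnion_finset (box N) (fun p _ => hdm p)
    (fun p _ q _ hpq => dom_disj hpq) (fun p _ => hgi.integrableOn)]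
  rw [setIntegral_eq_integral_of_forall_compl_eq_zero]
  intro w hw
  by_contra h
  apply hw
  have h3 : φ w ≠ 0 := by
    intro h4
    apply h
    show (φ w : ℂ) * F w = 0
    rw [h4]
    simp
  obtain ⟨p, hp1⟩ := dom_cover w
  rw [Set.mem_iUnion₂]
  refine ⟨p, ?_, hp1⟩
  refine mem_box (R := R) (ρ := 4) (by linarith) (w := w - tv p) (hcell _ hp1) ?_
  rw [sub_add_cancel]
  exact hR w h3

theorem zero_int (R : ℕ) (E : ℕ) (h : NoSmall 2 R E) (ξ : GI) (hξ : ξ ≠ 0) (hR : ξ.norm ≤ R)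
    (b a : GI → ℂ) : ∫ z in cell 2, ch ξ z * (TP (V E) b z * TP (V E) a z) = 0 := by
  have h1 : ∀ z, ch ξ z * (TP (V E) b z * TP (V E) a z) =
      ∑ ν ∈ V E, ∑ ν' ∈ V E, (b ν * a ν') * ch (ξ + (ν + ν')) z := by
    intro z
    unfold TP
    rw [Finset.sum_mul_sum, Finset.mul_sum]
    refine Finset.sum_congr rfl fun ν _ => ?_
    rw [Finset.mul_sum]
    refine Finset.sum_congr rfl fun ν' _ => ?_
    rw [ch_add, ch_add]
    ring
  simp_rw [h1]
  rw [csum (V E) (fun ν z => ∑ ν' ∈ V E, (b ν * a ν') * ch (ξ + (ν + ν')) z)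
    (fun ν _ => continuous_finsetSum _ fun ν' _ => continuous_const.mul (ch_cont _))]
  refine Finset.sum_eq_zero fun ν hν => ?_
  rw [csum (V E) (fun ν' z => (b ν * a ν') * ch (ξ + (ν + ν')) z)
    (fun ν' _ => continuous_const.mul (ch_cont _))]
  refine Finset.sum_eq_zero fun ν' hν' => ?_
  rw [integral_const_mul, int_ch, if_neg, mul_zero]
  intro h2
  have h3 : ν + ν' = -ξ := eq_neg_of_add_eq_zero_right h2
  have h4 := h ![ν, ν'] (by
    intro i
    fin_cases i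
    · exact hν
    · exact hν')
  rw [Fin.sum_univ_two] at h4
  simp only [Matrix.cons_val_zero, Matrix.cons_val_one] at h4
  rw [h3, Zsqrtd.norm_neg] at h4
  have h5 := h4 (neg_ne_zero.2 hξ)
  omega

theorem bil (hUNI : S_UNI) (E : ℕ → ℕ) (hns : ∀ R : ℕ, ∀ᶠ n in atTop, NoSmall 2 R (E n))
    (b a : ℕ → GI → ℂ)
    (hb : ∀ n, ∑ ν ∈ V (E n), ‖b n ν‖ ^ 2 ≤ 1)
    (ha : ∀ n, ∑ ν ∈ V (E n), ‖a n ν‖ ^ 2 ≤ 1)
    (L : ℂ) (hL : Tendsto (fun n => ∑ ν ∈ V (E n), b n ν * a n (-ν)) atTop (𝓝 L))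
    (φ : ℂ → ℝ) (hφ : Continuous φ) (hc : HasCompactSupport φ) :
    Tendsto (fun n => ∫ z, (φ z : ℂ) * (TP (V (E n)) (b n) z * TP (V (E n)) (a n) z))
      atTop (𝓝 (((∫ z, φ z : ℝ) : ℂ) * L)) := by
  classical
  obtain ⟨R, hR⟩ := (IsCompact.isBounded hc).subset_closedBall 0
  have hR' : ∀ w, φ w ≠ 0 → ‖w‖ ≤ R := fun w hw => by
    have := hR (subset_tsupport _ hw)
    rwa [mem_closedBall_zero_iff] at this
  set I0 : ℝ := ∫ z, φ z with hI0
  suffices hmain : ∀ ε : ℝ, 0 < ε → ε ≤ 1 → ∀ᶠ n in atTop,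
      ‖(∫ z, (φ z : ℂ) * (TP (V (E n)) (b n) z * TP (V (E n)) (a n) z)) -
        (I0 : ℂ) * L‖ ≤ (4 + 4 * (‖L‖ + 1) + |I0|) * ε by
    rw [Metric.tendsto_nhds]
    intro ε hε
    set K : ℝ := 4 + 4 * (‖L‖ + 1) + |I0| with hK
    have hK0 : 0 < K := by positivity
    refine (hmain (min 1 (ε / (2 * K))) (by positivity) (min_le_left _ _)).mono fun n hn => ?_
    rw [dist_eq_norm]
    refine hn.trans_lt ?_
    calc K * min 1 (ε / (2 * K)) ≤ K * (ε / (2 * K)) :=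
          mul_le_mul_of_nonneg_left (min_le_right _ _) hK0.le
      _ = ε / 2 := by field_simp
      _ < ε := by linarith
  intro ε hε hε1
  have hPc := Ph_cont φ hφ R hR'
  obtain ⟨T, α, hT⟩ := hUNI (Ph φ) hPc (Ph_per φ) ε hε
  obtain ⟨M, hM⟩ : ∃ M : ℕ, ∀ ξ ∈ T, ξ.norm ≤ M := by
    refine ⟨T.sup fun ξ => ξ.norm.toNat, fun ξ hξ => ?_⟩
    have h1 : ξ.norm.toNat ≤ T.sup fun ξ => ξ.norm.toNat :=
      Finset.le_sup (f := fun ξ : GI => ξ.norm.toNat) hξ
    have h2 := Int.self_le_toNat ξ.norm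
    have h3 : ((ξ.norm.toNat : ℕ) : ℤ) ≤ ((T.sup fun ξ => ξ.norm.toNat : ℕ) : ℤ) := by
      exact_mod_cast h1
    linarith
  have hn3 : ∀ᶠ n in atTop, ‖∑ ν ∈ V (E n), b n ν * a n (-ν) - L‖ ≤ ε := by
    rw [Metric.tendsto_nhds] at hL
    exact (hL ε hε).mono fun n hn => by rw [dist_eq_norm] at hn; exact hn.le
  set P : ℂ → ℂ := fun z => ∑ ξ ∈ T, α ξ * ch ξ z with hP
  have hPcont : Continuous P := continuous_finsetSum _ fun ν _ => continuous_const.mul (ch_cont ν)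
  set A : ℂ := ∑ ξ ∈ T, α ξ * (if ξ = 0 then 1 else 0) with hA
  -- the comparison of the integrals against a periodic function
  have hcomp : ∀ F : ℂ → ℂ, Continuous F → Per 2 F →
      ‖(∫ z, (φ z : ℂ) * F z) - ∫ z in cell 2, P z * F z‖ ≤ ε * ∫ z in cell 2, ‖F z‖ := by
    intro F hF hp
    rw [unfold_int φ hφ hc R hR' F hF hp]
    have h1 : (∫ z in cell 2, Ph φ z * F z) - ∫ z in cell 2, P z * F z =
        ∫ z in cell 2, (Ph φ z - P z) * F z := by
      refine (integral_sub (f := fun z => Ph φ z * F z) (g := fun z => P z * F z)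
        (cell_integrable 2 (hPc.mul hF)) (cell_integrable 2 (hPcont.mul hF))).symm.trans ?_
      congr 1
      funext z
      ring
    rw [h1, ← integral_const_mul]
    refine norm_integral_le_of_norm_le (cell_integrable 2 (continuous_const.mul hF.norm))
      (Eventually.of_forall fun z => ?_)
    rw [norm_mul]
    exact mul_le_mul_of_nonneg_right (hT z) (norm_nonneg _)
  have hper2 : ∀ (T : Finset GaussianInt) (f : GaussianInt → ℂ), Per 2 (TP T f) := fun T f =>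
    TP_per T f 2 fun ν _ => ch_per2 ν
  -- F = 1
  have hone : ‖(I0 : ℂ) - 4 * A‖ ≤ 4 * ε := by
    have h1 := hcomp (fun _ => 1) continuous_const ⟨fun _ => rfl, fun _ => rfl⟩
    have h2 : ∫ z, (φ z : ℂ) * (1 : ℂ) = (I0 : ℂ) := by
      simp only [mul_one]
      rw [hI0]
      exact integral_complex_ofReal
    have h3 : ∫ z in cell 2, P z * (1 : ℂ) = 4 * A := by
      simp only [mul_one, hP]
      rw [csum T (fun ξ z => α ξ * ch ξ z) (fun ξ _ => continuous_const.mul (ch_cont _)), hA,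
        Finset.mul_sum]
      refine Finset.sum_congr rfl fun ξ _ => ?_
      rw [integral_const_mul, int_ch]
      split_ifs <;> ring
    have h4 : ∫ z in cell 2, ‖(1 : ℂ)‖ = 4 := by
      simp only [norm_one, integral_const, smul_eq_mul, mul_one, measureReal_def,
        Measure.restrict_apply_univ, cell_vol 2 (by norm_num)]
      norm_num
    rw [h2, h3, h4] at h1
    linarith
  filter_upwards [hns M, hn3] with n hn1 hn3
  set F : ℂ → ℂ := fun z => TP (V (E n)) (b n) z * TP (V (E n)) (a n) z with hF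
  have hFc : Continuous F := (TP_cont _ _).mul (TP_cont _ _)
  have hFp : Per 2 F := (hper2 _ _).mul (hper2 _ _)
  have hF1 : ∫ z in cell 2, ‖F z‖ ≤ 4 := by
    have h1 : ∀ z, ‖F z‖ ≤ (‖TP (V (E n)) (b n) z‖ ^ 2 + ‖TP (V (E n)) (a n) z‖ ^ 2) / 2 := by
      intro z
      show ‖TP (V (E n)) (b n) z * TP (V (E n)) (a n) z‖ ≤ _
      rw [norm_mul]
      nlinarith [sq_nonneg (‖TP (V (E n)) (b n) z‖ - ‖TP (V (E n)) (a n) z‖)]
    have c1 : Continuous fun z => ‖TP (V (E n)) (b n) z‖ ^ 2 := by fun_prop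
    have c2 : Continuous fun z => ‖TP (V (E n)) (a n) z‖ ^ 2 := by fun_prop
    have hb' := hb n
    have ha' := ha n
    calc ∫ z in cell 2, ‖F z‖ ≤
          ∫ z in cell 2, (‖TP (V (E n)) (b n) z‖ ^ 2 + ‖TP (V (E n)) (a n) z‖ ^ 2) / 2 :=
          integral_mono (cell_integrable 2 hFc.norm) (cell_integrable 2 (by fun_prop)) h1
      _ = ((∫ z in cell 2, ‖TP (V (E n)) (b n) z‖ ^ 2) +
            ∫ z in cell 2, ‖TP (V (E n)) (a n) z‖ ^ 2) / 2 := by
          rw [integral_div, integral_add (cell_integrable 2 c1) (cell_integrable 2 c2)]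
      _ = (4 * ∑ ν ∈ V (E n), ‖b n ν‖ ^ 2 + 4 * ∑ ν ∈ V (E n), ‖a n ν‖ ^ 2) / 2 := by
          have h2 := parseval (V (E n)) (b n)
          have h3 := parseval (V (E n)) (a n)
          unfold TP
          rw [h2, h3]
      _ ≤ 4 := by linarith
  have hl := hcomp F hFc hFp
  have hPF : ∫ z in cell 2, P z * F z = A * (4 * ∑ ν ∈ V (E n), b n ν * a n (-ν)) := by
    have e1 : ∀ z, P z * F z = ∑ ξ ∈ T, α ξ * (ch ξ z * F z) := by
      intro z
      simp only [hP]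
      rw [Finset.sum_mul]
      exact Finset.sum_congr rfl fun ξ _ => by ring
    simp_rw [e1]
    rw [csum T (fun ξ z => α ξ * (ch ξ z * F z))
      (fun ξ _ => continuous_const.mul ((ch_cont _).mul hFc)), hA, Finset.sum_mul]
    refine Finset.sum_congr rfl fun ξ hξ => ?_
    rw [integral_const_mul]
    by_cases h0 : ξ = 0
    · rw [if_pos h0]
      have h4 := TP_ip (V (E n)) (fun ν hν => neg_mem_V hν) (b n) (a n)
      have h5 : ∫ z in cell 2, ch ξ z * F z = 4 * ∑ ν ∈ V (E n), b n ν * a n (-ν) := by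
        rw [← h4, h0]
        simp only [ch_zero, one_mul, hF]
      rw [h5]
      ring
    · rw [if_neg h0, zero_int M (E n) hn1 ξ h0 (hM ξ hξ)]
      ring
  rw [hPF] at hl
  set Bn : ℂ := ∑ ν ∈ V (E n), b n ν * a n (-ν) with hBn
  have hBn1 : ‖Bn‖ ≤ ‖L‖ + 1 := by
    calc ‖Bn‖ = ‖(Bn - L) + L‖ := by congr 1; ring
      _ ≤ ‖Bn - L‖ + ‖L‖ := norm_add_le _ _
      _ ≤ ‖L‖ + 1 := by linarith
  have hl2 := hl.trans (mul_le_mul_of_nonneg_left hF1 hε.le)
  calc _ = ‖((∫ z, (φ z : ℂ) * F z) - A * (4 * Bn)) - ((I0 : ℂ) - 4 * A) * Bn +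
      (I0 : ℂ) * (Bn - L)‖ := by
        congr 1
        ring
    _ ≤ ε * 4 + 4 * ε * (‖L‖ + 1) + |I0| * ε := by
        refine (norm_add_le _ _).trans (add_le_add ((norm_sub_le _ _).trans
          (add_le_add hl2 ?_)) ?_)
        · rw [norm_mul]
          exact mul_le_mul hone hBn1 (norm_nonneg _) (by linarith)
        · rw [norm_mul, Complex.norm_real, Real.norm_eq_abs]
          exact mul_le_mul_of_nonneg_left hn3 (abs_nonneg _)
    _ = _ := by ring

end QEG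

theorem QEG (hUNI : S_UNI) : S_QEG := by
  intro E hE hns σ b u hr hb1 hA Ω
  have hb2 : ∀ n ν, ‖(b n ν : ℂ)‖ ^ 2 = b n ν ^ 2 := fun n ν => by
    rw [Complex.norm_real, Real.norm_eq_abs, sq_abs]
  have hb1' : ∀ n, ∑ ν ∈ V (E n), ‖(b n ν : ℂ)‖ ^ 2 = 1 := fun n => by
    rw [← hb1 n]
    exact Finset.sum_congr rfl fun ν _ => hb2 n ν
  intro φ hφ K
  set a : ℕ → GaussianInt → ℂ := fun n ν =>
    (b n ν : ℂ) * (I * (starRingEnd ℂ) (uE (E n) ν)) ^ K with ha
  have han : ∀ n, ∀ ν ∈ V (E n), ‖a n ν‖ = ‖(b n ν : ℂ)‖ := by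
    intro n ν hν
    simp only [ha]
    rw [norm_mul, norm_pow, norm_mul, Complex.norm_I, RCLike.norm_conj,
      uE_norm _ (hE n) ν hν, mul_one, one_pow, mul_one]
  have hL : Tendsto (fun n => ∑ ν ∈ V (E n), (b n ν : ℂ) * a n (-ν)) atTop
      (𝓝 (if K = 0 then 1 else 0)) := by
    have h1 : ∀ n, ∑ ν ∈ V (E n), (b n ν : ℂ) * a n (-ν) =
        (-I) ^ K * (starRingEnd ℂ) (∑ ν ∈ V (E n), ((‖(b n ν : ℂ)‖ ^ 2 : ℝ) : ℂ) *
          Complex.exp (I * ((K : ℤ) * dirn ν : ℝ))) := by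
      intro n
      rw [map_sum, Finset.mul_sum]
      refine Finset.sum_congr rfl fun ν hν => ?_
      simp only [ha]
      rw [exp_int_mul', uE_exp _ (hE n) ν hν, zpow_natCast, map_mul, Complex.conj_ofReal, map_pow,
        (hr n).neg, uE_neg, map_neg, hb2]
      have h2 : I * -(starRingEnd ℂ) (uE (E n) ν) =
          -I * (starRingEnd ℂ) (uE (E n) ν) := by ring
      rw [h2, mul_pow]
      push_cast
      ring
    simp_rw [h1]
    by_cases hK : K = 0
    · subst hK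
      simp only [pow_zero, one_mul, if_true]
      refine tendsto_const_nhds.congr fun n => ?_
      have h3 : ∑ ν ∈ V (E n), ((‖(b n ν : ℂ)‖ ^ 2 : ℝ) : ℂ) *
          Complex.exp (I * (((0 : ℕ) : ℤ) * dirn ν : ℝ)) = 1 := by
        simp only [Nat.cast_zero, Int.cast_zero, zero_mul, Complex.ofReal_zero, mul_zero,
          Complex.exp_zero, mul_one]
        rw [← Complex.ofReal_sum, hb1' n, Complex.ofReal_one]
      rw [h3, map_one]
    · rw [if_neg hK]
      have h2 := ((Complex.continuous_conj.tendsto _).comp (hA K (by exact_mod_cast hK))).const_mul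
        ((-I) ^ K)
      rw [map_zero, mul_zero] at h2
      exact h2
  have hmain := QEG.bil hUNI E hns (fun n ν => (b n ν : ℂ)) a (fun n => (hb1' n).le)
    (fun n => by
      rw [Finset.sum_congr rfl fun ν hν => by rw [han n ν hν]]
      exact (hb1' n).le) _ hL φ hφ.1.continuous hφ.2.1
  have hgoal : ∀ n, ∫ z, (φ z : ℂ) * ((u n z : ℂ) *
      (Dp (1 / √(lamE (E n))))^[K] (fun w => (u n w : ℂ)) z) =
      ∫ z, (φ z : ℂ) * (TP (V (E n)) (fun ν => (b n ν : ℂ)) z *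
        TP (V (E n)) (a n) z) := by
    intro n
    have h1 : (fun w => (u n w : ℂ)) = fun z => ∑ ν ∈ V (E n), (b n ν : ℂ) * ch ν z :=
      funext (hr n).eq
    have h2 : (Dp (1 / √(lamE (E n))))^[K] (fun w => (u n w : ℂ)) =
        TP (V (E n)) (a n) := by
      rw [h1, Dp_trig_iter]
      funext z
      unfold TP
      refine Finset.sum_congr rfl fun ν _ => ?_
      rw [factor]
    rw [h2]
    refine integral_congr_ae (Eventually.of_forall fun z => ?_)
    show (φ z : ℂ) * ((u n z : ℂ) * _) = _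
    rw [(hr n).eq]
    rfl
  refine Tendsto.congr (fun n => (hgoal n).symm) ?_
  convert hmain using 2
  split_ifs <;> simp

end

end Pool.Agent.L0h77.BW
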